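import Mathlib

/-!
# Project EPS (MP_70a3e9_pr): definitions

`KK u` is the homogeneous entropy of a nonnegative function, `cv` the convolution,
`Bdc` = bounded, nonnegative, measurable, compact support,
`EP G n` the linear form of Shannon's entropy power inequality for such functions on `G`.
`Nice` densities on an interval, `ga` the Gaussian density `exp (-π x²)`.
`ent μ`, `FinE μ`: differential entropy of a measure on `ℝ^d`, and its finiteness.
-/

set_option autoImplicit false

namespace Pool.Agent.EPS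

open MeasureTheory

instance haar_prod {G H : Type*} [MeasureSpace G] [TopologicalSpace G] [AddCommGroup G]
    [IsTopologicalAddGroup G] [BorelSpace G] [SecondCountableTopology G] [LocallyCompactSpace G]
    [T2Space G] [(volume : Measure G).IsAddHaarMeasure] [MeasureSpace H] [TopologicalSpace H]
    [AddCommGroup H] [IsTopologicalAddGroup H] [BorelSpace H] [SecondCountableTopology H]
    [LocallyCompactSpace H] [T2Space H] [(volume : Measure H).IsAddHaarMeasure] :
    (volume : Measure (G × H)).IsAddHaarMeasure := by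
  rw [Measure.volume_eq_prod]
  infer_instance

/-- homogeneous entropy `∫ -u log u + m log m`, `m = ∫ u` -/
noncomputable def KK {G : Type*} [MeasureSpace G] (u : G → ℝ) : ℝ :=
  (∫ x, Real.negMulLog (u x)) - Real.negMulLog (∫ x, u x)

/-- convolution -/
noncomputable def cv {G : Type*} [MeasureSpace G] [AddCommGroup G] (u v : G → ℝ) (t : G) : ℝ :=
  ∫ x, u x * v (t - x)

/-- bounded, nonnegative, measurable, compact support -/
structure Bdc {G : Type*} [MeasurableSpace G] [TopologicalSpace G] (u : G → ℝ) : Prop where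
  meas : Measurable u
  nn : ∀ x, 0 ≤ u x
  bd : ∃ M : ℝ, ∀ x, u x ≤ M
  supp : ∃ K : Set G, IsCompact K ∧ ∀ x, x ∉ K → u x = 0

/-- the linear form of the entropy power inequality on `G` (dimension `n`) -/
def EP (G : Type*) [MeasureSpace G] [TopologicalSpace G] [AddCommGroup G] (n : ℝ) : Prop :=
  ∀ u v : G → ℝ, Bdc u → Bdc v → ∀ l : ℝ, 0 < l → l < 1 →
    l * (∫ x, v x) * KK u + (1 - l) * (∫ x, u x) * KK v
      + n / 2 * Real.binEntropy l * ((∫ x, u x) * ∫ x, v x) ≤ KK (cv u v)

/-- nice probability densities on `[a, b]` -/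
structure Nice (a b m M : ℝ) (f : ℝ → ℝ) : Prop where
  ab : a < b
  m0 : 0 < m
  cont : ContinuousOn f (Set.Icc a b)
  lo : ∀ x ∈ Set.Icc a b, m ≤ f x
  hi : ∀ x ∈ Set.Icc a b, f x ≤ M
  off : ∀ x, x ∉ Set.Icc a b → f x = 0
  one : ∫ x, f x = 1

/-- the Gaussian density `exp (-π x²)` -/
noncomputable def ga (x : ℝ) : ℝ := Real.exp (-(Real.pi * x ^ 2))

/-- a transport map from `ga` to `f` -/
structure Tr (a b : ℝ) (f T : ℝ → ℝ) : Prop where
  mem : ∀ x, T x ∈ Set.Ioo a b
  der : ∀ x, HasDerivAt T (ga x / f (T x)) x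
  sur : ∀ y ∈ Set.Ioo a b, ∃ x, T x = y

/-- the rotated sum `T (c x - s y) + U (s x + c y)` -/
def Th (c s : ℝ) (T U : ℝ → ℝ) (x y : ℝ) : ℝ := T (c * x - s * y) + U (s * x + c * y)

/-- its derivative in `x` -/
noncomputable def Dx (c s : ℝ) (f g T U : ℝ → ℝ) (x y : ℝ) : ℝ :=
  c * (ga (c * x - s * y) / f (T (c * x - s * y))) +
    s * (ga (s * x + c * y) / g (U (s * x + c * y)))

/-- probability densities with finite entropy -/
structure FinD {G : Type*} [MeasureSpace G] (f : G → ℝ) : Prop where
  meas : Measurable f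
  nn : ∀ x, 0 ≤ f x
  int : Integrable f
  one : ∫ x, f x = 1
  ent : Integrable (fun x => Real.negMulLog (f x))

/-- differential entropy of a measure on `ℝ^d` -/
noncomputable def ent {d : ℕ} (μ : Measure (EuclideanSpace ℝ (Fin d))) : ℝ :=
  ∫ x, Real.negMulLog ((μ.rnDeriv volume x).toReal)

/-- absolutely continuous with finite differential entropy -/
def FinE {d : ℕ} (μ : Measure (EuclideanSpace ℝ (Fin d))) : Prop :=
  μ ≪ volume ∧ Integrable (fun x => Real.negMulLog ((μ.rnDeriv volume x).toReal))

/-- law of `(A, A + C)`, `A ∼ α`, `C ∼ γ` independent -/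
noncomputable def Jn {d : ℕ} (α γ : Measure (EuclideanSpace ℝ (Fin d))) :
    Measure (EuclideanSpace ℝ (Fin d) × EuclideanSpace ℝ (Fin d)) :=
  (α.prod γ).map (fun p => (p.1, p.1 + p.2))

/-- the mutual information of `A` and `A + C` -/
noncomputable def MI {d : ℕ} (α γ : Measure (EuclideanSpace ℝ (Fin d))) : ENNReal :=
  InformationTheory.klDiv (Jn α γ) (α.prod (α.conv γ))

/-- the law of the sum of `k` independent copies -/
noncomputable def cp {d : ℕ} (ζ : Measure (EuclideanSpace ℝ (Fin d))) :
    ℕ → Measure (EuclideanSpace ℝ (Fin d))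
  | 0 => Measure.dirac 0
  | (k + 1) => (cp ζ k).conv ζ

end Pool.Agent.EPS
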